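import Pool.Agent.WR2.StmtsB

/-! WR2, row COV (helper80). -/

set_option autoImplicit false

namespace Pool.Agent.WR2.H80

open Pool.Agent.WIR
open scoped BigOperators ENNReal

/-- **Row COV** -/
theorem cov (h1 : Lg2Stmt) : CovStmt := by
  intro q n hq hqn
  have hgrow : ∀ j : ℕ, 20 * j ≤ tj q j := by
    intro j
    induction j with
    | zero => simp
    | succ j ih =>
      have h2 : tj q (j + 1) = tj q j + (tj q j + q) / 100 := rfl
      omega
  have hex : ∃ j : ℕ, 2380000 * (n + 1) ≤ 522110 * tj q j + 34000 * q :=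
    ⟨n + 1, by have := hgrow (n + 1); omega⟩
  classical
  obtain ⟨j, hj, hmin⟩ : ∃ j : ℕ, 2380000 * (n + 1) ≤ 522110 * tj q j + 34000 * q ∧
      ∀ i < j, ¬ 2380000 * (n + 1) ≤ 522110 * tj q i + 34000 * q :=
    ⟨Nat.find hex, Nat.find_spec hex, fun i hi => Nat.find_min hex hi⟩
  refine ⟨j, by omega, ?_⟩
  intro l1 hl1
  have hw : 999 * tj q j ≤ 2000 * l1 ∧ 2000 * l1 ≤ 1001 * tj q j := (Finset.mem_filter.mp hl1).2
  obtain ⟨ha, hb, -, -⟩ := h1.1 l1
  have hlow : 24000 * n + 24000 ≥ 5091 * tj q j + 72 * q + 48000 ∨ tj q j = 0 := by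
    rcases Nat.eq_zero_or_pos j with h0 | h0
    · right; rw [h0]; rfl
    · left
      obtain ⟨i, rfl⟩ : ∃ i, j = i + 1 := ⟨j - 1, by omega⟩
      have h3 := hmin i (by omega)
      have h2 : tj q (i + 1) = tj q i + (tj q i + q) / 100 := rfl
      omega
  set g := Nat.log 2 (3 ^ l1) with hg
  clear_value g
  set t := tj q j with ht
  clear_value t
  have hkey : t + 3 * ((t + q) / 1000) ≤ n + g := by
    rcases hlow with h | h
    · omega
    · subst h
      omega
  refine ⟨n + g - t, by omega, by omega, by omega⟩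

end Pool.Agent.WR2.H80
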